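import Pool.Agent.K7.H86.WR.Grids
import Pool.Agent.K7.H86.WR.TV

/-!
# Self-avoiding walks in half-planes, wedges and other domains: the ratio theorem for all functions
of the first and the last steps, uniformly over rare events
-/

set_option autoImplicit false

namespace Pool.Agent.Results.MP_df1d0b_pr.EndsRatio

open Filter Topology
open Pool.Agent.Results.MP_df1d0b_pr.InitialPieces (Grid walks mean ncard_eq root_of half_square
  half_triangular half_hexagonal)

/-- the first `a` steps of the walk: `γ 0, …, γ a` -/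
def first (a : ℕ) (γ : ℕ → ℤ × ℤ) : ℕ → ℤ × ℤ := fun i => γ (min i a)

/-- the last `b` steps of the `n`-step walk, backwards: `γ n, …, γ (n - b)` -/
def last (n b : ℕ) (γ : ℕ → ℤ × ℤ) : ℕ → ℤ × ℤ := fun i => γ (n - min i b)

/-- The ratio theorem for the walks in `D`: if at least `C (log n)^g` of the `n = a + ℓ + b` steps are
between the first `a` and the last `b` steps, then for every function `f ≥ 0` of the first `a` and
the last `b` steps which is at most `M` on the walks with `n` and with `n + s` steps and has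
mean `m_n ≥ M e^(-cℓ)`,
`|m_{n+s} / m_n - 1| ≤ R ((log n)^(g/2) + √(log (M / m_n))) / √ℓ`. -/
def Ratio (G : Grid) (D : ℤ × ℤ → Prop) (g : ℕ) : Prop :=
  ∃ R c C : ℝ, 0 < R ∧ 0 < c ∧ 0 < C ∧ ∀ n a ℓ b : ℕ, n = a + ℓ + b → 2 ≤ n →
    C * Real.log n ^ g ≤ ℓ → ∀ (M : ℝ) (f : (ℕ → ℤ × ℤ) → (ℕ → ℤ × ℤ) → ℝ), 0 < M →
    (∀ x y, 0 ≤ f x y) →
    (∀ γ ∈ walks G D n, f (first a γ) (last n b γ) ≤ M) →
    (∀ γ ∈ walks G D (n + G.s), f (first a γ) (last (n + G.s) b γ) ≤ M) →
    M * Real.exp (-(c * ℓ)) ≤ mean G D n (fun γ => f (first a γ) (last n b γ)) →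
    |mean G D (n + G.s) (fun γ => f (first a γ) (last (n + G.s) b γ)) /
        mean G D n (fun γ => f (first a γ) (last n b γ)) - 1| ≤
      R * (√(Real.log n ^ g) +
        √(Real.log (M / mean G D n (fun γ => f (first a γ) (last n b γ))))) / √ℓ

/-- The total variation distance of the joint laws of the first `a` and the last `b` steps, for the
walks in `D` with `n` and with `n + s k` steps (the supremum of the left side over `f`): it is at
most `C k √((log n)^g / ℓ)`, if `ℓ = n - a - b ≥ C (log n)^g`. -/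
def Close (G : Grid) (D : ℤ × ℤ → Prop) (g : ℕ) : Prop :=
  ∃ C : ℝ, 0 < C ∧ ∀ n a ℓ b : ℕ, n = a + ℓ + b → 2 ≤ n → C * Real.log n ^ g ≤ ℓ →
    ∀ f : (ℕ → ℤ × ℤ) → (ℕ → ℤ × ℤ) → ℝ, (∀ x y, 0 ≤ f x y ∧ f x y ≤ 1) → ∀ k : ℕ,
    |mean G D (n + G.s * k) (fun γ => f (first a γ) (last (n + G.s * k) b γ)) -
      mean G D n (fun γ => f (first a γ) (last n b γ))| ≤ C * (k * (√(Real.log n ^ g) / √ℓ))

/-- both properties -/
def Both (G : Grid) (D : ℤ × ℤ → Prop) (g : ℕ) : Prop := Ratio G D g ∧ Close G D g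

/-! ### transfer from the library -/

open Pool.Agent.R965.HP TH966.AK

theorem ratio_of (G : Grid) (D : ℤ × ℤ → Prop) {A : ℤ × ℤ → ℤ × ℤ → Prop}
    (e : G.Adj = A) (Z : Rule A) (hs : Z.s = G.s) {μ : ℝ} {g : ℕ} (hg : 1 ≤ g)
    (H : ∃ K K1 C1 : ℝ, WH Z D μ K K1 C1 g) : Both G D g := by
  subst e
  obtain ⟨K, K1, C1, H⟩ := H
  refine ⟨?_, by
    obtain ⟨C, hC, h⟩ := Pool.Agent.K7.H86.WR.ends_tv' H hg
    rw [hs] at h
    exact ⟨C, by linarith, h⟩⟩
  obtain ⟨R, c, C, hR, hc, hC, h⟩ := Pool.Agent.K7.H86.WR.ends_ratio' H hg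
  refine ⟨R, c, C, hR, hc, by linarith, fun n a ℓ b hab hn hℓ M f hM hf h1 h2 hm => ?_⟩
  rw [hs] at h
  exact h n a ℓ b hab hn hℓ M hM f hf h1 h2 hm

theorem dom_of (L : H982.Lat) (G : Grid) {A : ℤ × ℤ → ℤ × ℤ → Prop}
    (e : G.Adj = A) (Z : Rule A) (hs : Z.s = G.s) (hs1 : 1 ≤ Z.s)
    {φ : ℤ × ℤ → ℤ × ℤ} {R : ℕ → ℤ × ℤ → Prop} (H : @H982.Coord L A φ R)
    (hcl : ∀ D : ℤ × ℤ → Prop, ∀ U U', Z.T U U' → (∀ x ∈ U', D x) → ∀ x ∈ U, D x)
    (hp : ∃ (M0 : ℕ) (ρ C0 : ℝ), 1 ≤ M0 ∧ 0 ≤ ρ ∧ ρ < @H982.mu L ∧ ∀ n : ℕ,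
      (((Kw A n).filter (fun w => M0 * (Z.B w).card ≤ n)).card : ℝ) ≤ C0 * ρ ^ n)
    (hA : ∀ c p q : ℤ × ℤ, A p q → A (p + c) (q + c))
    (hsub : ∀ U U', Z.T U U' → ∀ x ∈ U, x ∈ U')
    (htr : ∀ c U U', Z.T U U' → Z.T (tr c U) (tr c U'))
    (D : ℤ × ℤ → Prop) (h0 : D 0) (g : ℕ) (K : ℝ) (hg : 2 ≤ g)
    (hlow : ∀ n : ℕ, 2 ≤ n → @H982.mu L ^ n * Real.exp (-(K * Real.log n ^ g)) ≤
      ((walks G D n).ncard : ℝ)) : Both G D g := by
  refine ratio_of G D e Z hs (by omega) (wh_dom Z H hs1 D h0 (hcl D) hp hA hsub htr hg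
    (K := K) fun n hn => ?_)
  refine (hlow n hn).trans (le_of_eq ?_)
  exact ncard_eq G h0 e Z n

/-- **Theorem.** For each of the three grids let `μ` be the connective constant, and `s = 2` for the
square and the hexagonal grid, `s = 1` for the triangular grid. `Ratio G D g` is the ratio theorem
for the walks in `D`, uniformly over all functions of the first `a` and the last `b` steps whose mean
is not exponentially small in the number `ℓ = n - a - b` of the other steps, with the error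
`O(((log n)^(g/2) + √(log (M / m_n))) / √ℓ)`. `Close G D g`: the total variation distance of the
joint laws of the first `a` and the last `b` steps of the walks in `D` with `n` and with `n + s k`
steps is at most `C k √((log n)^g / ℓ)`, for all `k`, if `ℓ ≥ C (log n)^g`. Both hold
(1) for the closed upper half-plane on the three grids, with `g = 2`;
(2) for the square and the triangular grid and every set `D` of vertices which contains `0` and has at
least `μ ^ n exp (- K (log n)^g)` walks with `n` steps, for all `n ≥ 2` (`g ≥ 2`);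
(3) on the square grid with `g = 3` for every `D` which contains the points with `|x| ≤ η y`, for some
`0 < η ≤ 1`. -/
theorem result : ∀ G : Grid, ∃ μ : ℝ, 0 < μ ∧
    Tendsto (fun n : ℕ => ((walks G (fun _ => True) n).ncard : ℝ) ^ (1 / (n : ℝ))) atTop (𝓝 μ) ∧
    Both G G.Half 2 ∧
    (G ≠ .hexagonal → ∀ D : ℤ × ℤ → Prop, D 0 → ∀ (g : ℕ) (K : ℝ), 2 ≤ g →
      (∀ n : ℕ, 2 ≤ n → μ ^ n * Real.exp (-(K * Real.log n ^ g)) ≤
        ((walks G D n).ncard : ℝ)) → Both G D g) ∧
    (G = .square → ∀ η : ℝ, 0 < η → η ≤ 1 → ∀ D : ℤ × ℤ → Prop,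
      (∀ p : ℤ × ℤ, |(G.pt p).re| ≤ η * (G.pt p).im → D p) → Both G D 3) := by
  have esq : Grid.square.Adj = Pool.Agent.R965.HP.Sq.A := rfl
  have etri : Grid.triangular.Adj = TH966.AK.Tri.A := TH966.AK.adjT_eq
  have ehex : Grid.hexagonal.Adj = TH966.AK.Hex.A := rfl
  obtain ⟨φ, R, htri, -⟩ := Pool.Agent.R965.HP.coord_triA
  have hdsq := dom_of H982P.sqL .square esq Pool.Agent.R965.HP.Sq.rule rfl
    (show 1 ≤ 2 by norm_num) H982P.coord_sq Pool.Agent.R965.HP.sq_cl
    Pool.Agent.R965.HP.sq_poor sq_hA sq_hsub sq_htr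
  intro G
  cases G with
  | square =>
    refine ⟨@H982.mu H982P.sqL, @H982.mu_pos H982P.sqL,
      root_of H982P.sqL .square esq Pool.Agent.R965.HP.Sq.rule H982P.coord_sq, ?_,
      fun _ => hdsq, ?_⟩
    · rw [half_square]
      exact ratio_of .square _ esq Pool.Agent.R965.HP.Sq.rule rfl one_le_two
        (wh_half (L := H982P.sqL) _ H982P.coord_sq _ (show (0 : ℤ) ≤ 0 from le_rfl)
          (pw_sub (L := H982P.sqL) _ (show (0 : ℤ) ≤ 0 from le_rfl) sq_poor sq_hA sq_hsub
            sq_htr) Pool.Agent.R965.HP.half_sq)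
    · intro _ η hη hη1 D hD
      have hD' : ∀ p : ℤ × ℤ, |(p.2 : ℝ)| ≤ η * (p.1 : ℝ) → D p := hD
      have h0 : D 0 := hD' 0 (by simp)
      obtain ⟨K, hK⟩ := Pool.Agent.TH303.SX2.wedge_final
      refine hdsq D h0 3 (K / η) (by norm_num) fun n hn => ?_
      have h1 := hK η hη hη1 n hn
      have hw : ((Pool.Agent.H122R3.SX.walks n).ncard : ℝ) = @H982.cr' H982P.sqL n := by
        rw [← @H982.ncard_walks H982P.sqL _ _ _ H982P.coord_sq]
        rfl
      have h2 := @H982.mu_pow_le H982P.sqL n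
      rw [← hw] at h2
      have hmp : 0 < @H982.mu H982P.sqL ^ n := pow_pos (@H982.mu_pos H982P.sqL) n
      have hpos : (0 : ℝ) < ((Pool.Agent.H122R3.SX.walks n).ncard : ℝ) := hmp.trans_le h2
      rw [le_div_iff₀ hpos] at h1
      rw [ncard_eq .square h0 esq Pool.Agent.R965.HP.Sq.rule n,
        ← ncard_Wk Pool.Agent.R965.HP.Sq.rule h0 n]
      have hfin : (Wk Pool.Agent.R965.HP.Sq.A D n).Finite :=
        Wk_finite Pool.Agent.R965.HP.Sq.rule h0 n
      have h3 : ({f | f ∈ Pool.Agent.H122R3.SX.walks n ∧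
          ∀ i, |((f i).1 : ℝ)| ≤ η * (f i).2}.ncard : ℝ) ≤
          ((Wk Pool.Agent.R965.HP.Sq.A D n).ncard : ℝ) := by
        have hinj : Function.Injective (fun f : Fin (n + 1) → ℤ × ℤ => fun i => (f i).swap) := by
          intro f f' h
          funext i
          have := congrFun h i
          exact Prod.swap_injective this
        have hsub : (fun f : Fin (n + 1) → ℤ × ℤ => fun i => (f i).swap) ''
            {f | f ∈ Pool.Agent.H122R3.SX.walks n ∧ ∀ i, |((f i).1 : ℝ)| ≤ η * (f i).2} ⊆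
            Wk Pool.Agent.R965.HP.Sq.A D n := by
          rintro _ ⟨f, hf, rfl⟩
          refine ⟨?_, ?_, fun i => ?_, fun i => hD' _ (hf.2 i)⟩
          · show (f 0).swap = 0
            rw [hf.1.1]
            rfl
          · intro i j hij
            exact hf.1.2.1 (Prod.swap_injective hij)
          · have h4 := hf.1.2.2 i
            show |(f i.castSucc).2 - (f i.succ).2| + |(f i.castSucc).1 - (f i.succ).1| = 1
            rw [add_comm]
            exact h4
        rw [← Set.ncard_image_of_injective _ hinj]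
        exact_mod_cast Set.ncard_le_ncard hsub hfin
      refine le_trans ?_ (h1.trans h3)
      rw [mul_comm]
      exact mul_le_mul_of_nonneg_left h2 (Real.exp_pos _).le
  | triangular =>
    have h00 : (0 : ℤ) ≤ 0 + 0 := by norm_num
    refine ⟨@H982.mu H982P.triL, @H982.mu_pos H982P.triL,
      root_of H982P.triL .triangular etri TH966.AK.Tri.rule htri, ?_, fun _ => ?_,
      (fun h => by cases h)⟩
    · rw [half_triangular]
      exact ratio_of .triangular _ etri TH966.AK.Tri.rule rfl one_le_two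
        (wh_half (L := H982P.triL) _ htri _ h00
          (pw_sub (L := H982P.triL) _ h00 tri_poor tri_hA tri_hsub tri_htr)
          Pool.Agent.R965.HP.half_tri)
    · exact dom_of H982P.triL .triangular etri TH966.AK.Tri.rule rfl
        (show 1 ≤ 1 by norm_num) htri Pool.Agent.R965.HP.tri_cl Pool.Agent.R965.HP.tri_poor
        tri_hA tri_hsub tri_htr
  | hexagonal =>
    refine ⟨Real.sqrt (2 + Real.sqrt 2), by positivity, ?_, ?_, fun h => absurd rfl h,
      (fun h => by cases h)⟩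
    · have h1 := root_of H982P.hexL .hexagonal ehex TH966.AK.Hex.rule H982P.coord_hex
      rw [Pool.Agent.H976R3.HPL.mu_hex] at h1
      exact h1
    · rw [half_hexagonal]
      exact ratio_of .hexagonal _ ehex TH966.AK.Hex.rule rfl one_le_two wh_hex

end Pool.Agent.Results.MP_df1d0b_pr.EndsRatio
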