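import Pool.Agent.Results.MP_df1d0b_pr.InitialPieces
import Pool.Agent.K7.H86.KD.Five
import Pool.Agent.K7.H86.WR.Grids

/-!
# Self-avoiding walks in the half-plane: products of real powers of real moments of the end-to-end
distance, the diameter, the radius and the height of the end point
-/

set_option autoImplicit false

namespace Pool.Agent.Results.MP_df1d0b_pr.SizePowerLaws

open Filter Topology
open Pool.Agent.Results.MP_df1d0b_pr.InitialPieces (Grid walks mean half_square half_triangular
  half_hexagonal)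

/-- four sizes of a walk -/
inductive Size where
  | distance | diameter | radius | height

/-- The size of the walk `γ` with `n` steps: the distance of its end point from the origin, the
diameter of the set of its points, the largest distance of its points from the origin, and `1` plus the
height of its end point above the real line. -/
noncomputable def size (G : Grid) : Size → ℕ → (ℕ → ℤ × ℤ) → ℝ
  | .distance, n, γ => ‖G.pt (γ n)‖
  | .diameter, _, γ => Metric.diam (Set.range fun i => G.pt (γ i))
  | .radius, _, γ => sSup (Set.range fun i => ‖G.pt (γ i)‖)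
  | .height, n, γ => 1 + (G.pt (γ n)).im

/-- The mean of the `p`-th power of the size over the walks in the half-plane with `n` steps, `p`
real. -/
noncomputable def moment (G : Grid) (X : Size) (p : ℝ) (n : ℕ) : ℝ :=
  mean G G.Half n (fun γ => size G X n γ ^ p)

/-- the product of the moments `X, p` raised to the powers `a`, for `((X, p), a)` in the list -/
noncomputable def product (G : Grid) (l : List ((Size × ℝ) × ℝ)) (n : ℕ) : ℝ :=
  (l.map fun t => moment G t.1.1 t.1.2 n ^ t.2).prod

/-- The lengths `u_k` tend to infinity and `(u_{k+1} - u_k) log u_k / √u_k → 0`. -/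
def Sparse (u : ℕ → ℕ) : Prop :=
  Tendsto u atTop atTop ∧
    Tendsto (fun k => ((u (k + 1) : ℝ) - u k) * (Real.log (u k) / √(u k : ℝ))) atTop (𝓝 0)

/-- `log q_n / log n` -/
noncomputable def expo (q : ℕ → ℝ) (n : ℕ) : ℝ := Real.log (q n) / Real.log n

/-- The limit points of `log q_n / log n`. -/
def limitPoints (q : ℕ → ℝ) : Set ℝ := {x | MapClusterPt x atTop (expo q)}

/-- Infinitely many `n ≡ r (mod m)` satisfy `|q_n / n^c - B| ≤ K (1 + |c|) B log n / √n`. -/
def PowerLaw (q : ℕ → ℝ) (K c B : ℝ) (r m : ℕ) : Prop :=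
  ∃ᶠ n : ℕ in atTop, n % m = r ∧
    |q n / (n : ℝ) ^ c - B| ≤ K * (1 + |c|) * B * (Real.log n / √n)

/-! ### transfer from the library -/

open Pool.Agent.R965.HP TH966.AK Pool.Agent.K7.H86.KD

theorem emb_of : ∀ G : Grid, Emb G.pt
  | .square => emb_sq
  | .triangular => emb_tri
  | .hexagonal => emb_hex

theorem sep_of (G : Grid) : ∀ p : ℤ × ℤ, p ≠ 0 → 1 / 2 ≤ ‖G.pt p‖ := by
  intro p hp
  have h := Pool.Agent.K7.H86.WR.pt_low G p 0 hp
  rwa [(emb_of G).zero, sub_zero] at h

theorem laws_of (G : Grid) {A : ℤ × ℤ → ℤ × ℤ → Prop}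
    (e : G.Adj = A) (Z : Rule A) (hs : Z.s = G.s) (hs2 : Z.s = 1 ∨ Z.s = 2) (hr : Z.ρ + Z.s ≤ 10)
    {D : ℤ × ℤ → Prop} (hD : G.Half = D)
    (hh : ∀ p : ℤ × ℤ, D p → 0 ≤ (G.pt p).im) {μ : ℝ} (h0 : D 0)
    (H : ∃ K : ℝ, Gr (ruleD Z D).sys μ K 2) (l : List ((Size × ℝ) × ℝ)) :
    Laws (product G l) G.s := by
  subst e
  subst hD
  obtain ⟨K, H⟩ := H
  have key : ∀ i : Size × ℝ, Adm Z.s (moment G i.1 i.2) := by
    rintro ⟨X, p⟩
    cases X with
    | distance => exact adm_end H h0 hs2 (emb_of G) (sep_of G) p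
    | diameter => exact adm_dm H h0 hs2 (emb_of G) (sep_of G) hr p
    | radius => exact adm_rd H h0 hs2 (emb_of G) (sep_of G) hr p
    | height => exact adm_ht H h0 hs2 (emb_of G) hh p
  have h := (Adm.prod hs2 key l).laws
  rw [hs] at h
  exact h

/-- **Theorem.** For each of the three grids let `s = 2` for the square and the hexagonal grid,
`s = 1` for the triangular grid, and let `D_n = ∏_i ⟨X_i^{p_i}⟩_n^{a_i}` be a finite product of real
powers of moments, with real exponents `p_i` (positive or negative), of the end-to-end distance, the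
diameter, the largest distance from the origin, and `1` plus the height of the end point, for the
uniform self-avoiding walk with `n` steps in the closed upper half-plane.

(1) `D_n > 0` and `|D_{n+s} / D_n - 1| ≤ K log n / √n` for `n ≥ 2`.

(2) Let `u_k → ∞`, `u_k ≡ r (mod s)`, `(u_{k+1} - u_k) log u_k / √u_k → 0`. If `D_n / n^θ → B` along
`n = u_k`, then along all `n ≡ r (mod s)`.

(3) If infinitely many `n ≡ r (mod s)` have `D_n ≤ B n^θ` and infinitely many `D_n ≥ B n^θ`, then
infinitely many `n ≡ r (mod s)` have `|D_n / n^θ - B| ≤ K (1 + |θ|) B log n / √n`.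

(4) If for some `ε > 0` infinitely many `n` have `log D_n / log n ≤ c - ε` and infinitely many
`≥ c + ε`, then for every `B > 0` and each parity infinitely many `n` of this parity have
`|D_n / n^c - B| ≤ K (1 + |c|) B log n / √n`.

(5) The limit points of `log D_n / log n` form a compact interval; the sequence converges to `γ` if
and only if `γ` is a limit point near which there are only countably many limit points; if it does
not converge, then there is an interval of exponents `c` for all of which the conclusion of (4)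
holds. -/
theorem result : ∀ (G : Grid) (l : List ((Size × ℝ) × ℝ)), ∃ K : ℝ, 0 < K ∧
    (∀ n : ℕ, 2 ≤ n → 0 < product G l n ∧
      |product G l (n + G.s) / product G l n - 1| ≤ K * (Real.log n / √n)) ∧
    (∀ (u : ℕ → ℕ) (r : ℕ) (θ B : ℝ), Sparse u → (∀ k, u k % G.s = r) →
      Tendsto (fun k => product G l (u k) / (u k : ℝ) ^ θ) atTop (𝓝 B) →
      Tendsto (fun i : ℕ => product G l (G.s * i + r) / ((G.s * i + r : ℕ) : ℝ) ^ θ) atTop
        (𝓝 B)) ∧
    (∀ (r : ℕ) (θ B : ℝ), 0 < B →
      (∃ᶠ n : ℕ in atTop, n % G.s = r ∧ product G l n ≤ B * (n : ℝ) ^ θ) →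
      (∃ᶠ n : ℕ in atTop, n % G.s = r ∧ B * (n : ℝ) ^ θ ≤ product G l n) →
      PowerLaw (product G l) K θ B r G.s) ∧
    (∀ c ε : ℝ, 0 < ε → (∃ᶠ n in atTop, expo (product G l) n ≤ c - ε) →
      (∃ᶠ n in atTop, c + ε ≤ expo (product G l) n) →
      ∀ B : ℝ, 0 < B → ∀ p : ℕ, p ≤ 1 → PowerLaw (product G l) K c B p 2) ∧
    (IsCompact (limitPoints (product G l)) ∧ (limitPoints (product G l)).OrdConnected ∧
      (limitPoints (product G l)).Nonempty) ∧
    (∀ γ : ℝ, Tendsto (expo (product G l)) atTop (𝓝 γ) ↔ γ ∈ limitPoints (product G l) ∧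
      ∃ δ : ℝ, 0 < δ ∧ (limitPoints (product G l) ∩ Set.Ioo (γ - δ) (γ + δ)).Countable) ∧
    ((∃ γ, Tendsto (expo (product G l)) atTop (𝓝 γ)) ∨
      ∃ x y : ℝ, x < y ∧ ∀ c ∈ Set.Ioo x y, ∀ B : ℝ, 0 < B → ∀ p : ℕ, p ≤ 1 →
        PowerLaw (product G l) K c B p 2) := by
  have esq : Grid.square.Adj = Pool.Agent.R965.HP.Sq.A := rfl
  have etri : Grid.triangular.Adj = TH966.AK.Tri.A := TH966.AK.adjT_eq
  have ehex : Grid.hexagonal.Adj = TH966.AK.Hex.A := rfl
  intro G l
  have main : Laws (product G l) G.s := by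
    cases G with
    | square =>
      refine laws_of .square esq Pool.Agent.R965.HP.Sq.rule rfl (Or.inr rfl)
        (show 2 + 2 ≤ 10 by norm_num) half_square ?_ (show (0 : ℤ) ≤ 0 from le_rfl)
        Pool.Agent.R965.HP.half_sq l
      exact fun p hp => (congrFun half_square p).mpr hp
    | triangular =>
      have h00 : (0 : ℤ) ≤ 0 + 0 := by norm_num
      refine laws_of .triangular etri TH966.AK.Tri.rule rfl (Or.inl rfl)
        (show 1 + 1 ≤ 10 by norm_num) half_triangular ?_ h00
        Pool.Agent.R965.HP.half_tri l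
      exact fun p hp => (congrFun half_triangular p).mpr hp
    | hexagonal =>
      refine laws_of .hexagonal ehex TH966.AK.Hex.rule rfl (Or.inr rfl)
        (show 8 + 2 ≤ 10 by norm_num) half_hexagonal ?_ (show (0 : ℤ) ≤ 0 from le_rfl)
        Pool.Agent.R965.HP.half_hex l
      exact fun p hp => (congrFun half_hexagonal p).mpr hp
  exact main

end Pool.Agent.Results.MP_df1d0b_pr.SizePowerLaws
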