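import Pool.Agent.Results.MP_df1d0b_pr.InitialPieces
import Pool.Agent.K7.H86.KD.SizesL

/-!
# Self-avoiding walks in half-planes, wedges and other domains: the ratio theorem for functions of the
whole walk which change little; all real powers of the diameter and of the radius
-/

set_option autoImplicit false

namespace Pool.Agent.Results.MP_df1d0b_pr.WholeWalkRatio

open Filter Topology
open Pool.Agent.Results.MP_df1d0b_pr.InitialPieces (Grid walks mean ncard_eq root_of half_square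
  half_triangular half_hexagonal)

/-- all coordinates of the two walks differ by at most `10`, at all times -/
def Near (γ γ' : ℕ → ℤ × ℤ) : Prop := ∀ i, |(γ i).1 - (γ' i).1| ≤ 10 ∧ |(γ i).2 - (γ' i).2| ≤ 10

/-- The ratio theorem for the walks in `D`: for all large `n` and all functions `F` of the whole
walk with values in `[0, M]` which change at most by the factor `1 ± δ` (`δ ≤ 1`) when a walk `γ` with
`n` steps is replaced by a walk `γ'` with `n + s` steps near it, and whose mean `m_n` is at least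
`M e^(-cn)`,
`|m_{n+s} / m_n - 1| ≤ R (δ + ((log n)^(g/2) + √(log (M / m_n))) / √n)`. -/
def Ratio (G : Grid) (D : ℤ × ℤ → Prop) (g : ℕ) : Prop :=
  ∃ (R c : ℝ) (n₀ : ℕ), 0 < R ∧ 0 < c ∧ ∀ n : ℕ, n₀ ≤ n → ∀ M : ℝ, 0 < M →
    ∀ δ : ℝ, 0 ≤ δ → δ ≤ 1 → ∀ F : (ℕ → ℤ × ℤ) → ℝ,
    (∀ γ ∈ walks G D n, 0 ≤ F γ ∧ F γ ≤ M) → (∀ γ ∈ walks G D (n + G.s), 0 ≤ F γ ∧ F γ ≤ M) →
    (∀ γ ∈ walks G D n, ∀ γ' ∈ walks G D (n + G.s), Near γ γ' → |F γ' - F γ| ≤ δ * F γ) →
    M * Real.exp (-(c * n)) ≤ mean G D n F →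
    |mean G D (n + G.s) F / mean G D n F - 1| ≤
      R * (δ + (√(Real.log n ^ g) + √(Real.log (M / mean G D n F))) / √n)

/-- If `0 ≤ F ≤ 1` and `F` changes at most by `δ` when a walk with `m ≥ n` steps is replaced by a walk
with `m + s` steps near it, then the means of `F` for the walks in `D` with `n + s j` and with `n`
steps differ by at most `C j (δ + √((log n)^g / n))`. -/
def Close (G : Grid) (D : ℤ × ℤ → Prop) (g : ℕ) : Prop :=
  ∃ C : ℝ, ∀ n : ℕ, 2 ≤ n → ∀ δ : ℝ, 0 ≤ δ → ∀ F : (ℕ → ℤ × ℤ) → ℝ, (∀ γ, 0 ≤ F γ ∧ F γ ≤ 1) →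
    (∀ m, n ≤ m → ∀ γ ∈ walks G D m, ∀ γ' ∈ walks G D (m + G.s), Near γ γ' → |F γ' - F γ| ≤ δ) →
    ∀ j : ℕ, |mean G D (n + G.s * j) F - mean G D n F| ≤
      C * (j * (δ + √(Real.log n ^ g) / √n))

/-- the diameter of the walk -/
noncomputable def diam (G : Grid) (γ : ℕ → ℤ × ℤ) : ℝ :=
  Metric.diam (Set.range fun i => G.pt (γ i))

/-- the largest distance of a point of the walk from the origin -/
noncomputable def radius (G : Grid) (γ : ℕ → ℤ × ℤ) : ℝ := sSup (Set.range fun i => ‖G.pt (γ i)‖)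

/-- For every real number `p` (positive or negative) the mean of `X ^ p` over the walks in `D` with
`n` steps is positive for all large `n` and its ratio for `n + s` and `n` steps is
`1 + O(√((log n)^g / n))`. -/
def Moments (G : Grid) (D : ℤ × ℤ → Prop) (g : ℕ) (X : (ℕ → ℤ × ℤ) → ℝ) : Prop :=
  ∀ p : ℝ, ∃ C : ℝ, ∀ᶠ n : ℕ in atTop, 0 < mean G D n (fun γ => X γ ^ p) ∧
    |mean G D (n + G.s) (fun γ => X γ ^ p) / mean G D n (fun γ => X γ ^ p) - 1| ≤
      C * (√(Real.log n ^ g) / √n)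

/-- all properties -/
def All (G : Grid) (D : ℤ × ℤ → Prop) (g : ℕ) : Prop :=
  Ratio G D g ∧ Close G D g ∧ Moments G D g (diam G) ∧ Moments G D g (radius G)

/-! ### transfer from the library -/

open Pool.Agent.R965.HP TH966.AK

theorem emb_of : ∀ G : Grid, Emb G.pt
  | .square => emb_sq
  | .triangular => emb_tri
  | .hexagonal => emb_hex

theorem both_of (G : Grid) (D : ℤ × ℤ → Prop) {A : ℤ × ℤ → ℤ × ℤ → Prop}
    (e : G.Adj = A) (Z : Rule A) (hs : Z.s = G.s) (hr : Z.ρ + Z.s ≤ 10) {μ : ℝ} {g : ℕ}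
    (hg : 1 ≤ g) (h0 : D 0) (H : ∃ K : ℝ, Gr (ruleD Z D).sys μ K g) : All G D g := by
  subst e
  obtain ⟨K, H⟩ := H
  refine ⟨?_, ?_, fun p => ?_, fun p => ?_⟩
  · obtain ⟨R, c, n₀, hR, hc, -, h⟩ := Pool.Agent.K7.H86.KD.lip_ratio H hg h0 hr
    rw [hs] at h
    exact ⟨R, c, n₀, hR, hc, fun n hn M hM δ h1 h2 F h3 h4 h5 h6 =>
      h n hn M hM δ h1 h2 F h3 h4 (fun γ hγ γ' hγ' hn => h5 γ hγ γ' hγ' hn) h6⟩
  · obtain ⟨C, -, h⟩ := Pool.Agent.K7.H86.KD.lip_steps H hg h0 hr
    rw [hs] at h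
    exact ⟨C, h⟩
  · obtain ⟨C, -, h⟩ := Pool.Agent.K7.H86.KD.dm_pow H hg h0 (emb_of G) hr p
    rw [hs] at h
    exact ⟨C, h⟩
  · obtain ⟨C, -, h⟩ := Pool.Agent.K7.H86.KD.rd_pow H hg h0 (emb_of G) hr p
    rw [hs] at h
    exact ⟨C, h⟩

theorem dom_of (L : H982.Lat) (G : Grid) {A : ℤ × ℤ → ℤ × ℤ → Prop}
    (e : G.Adj = A) (Z : Rule A) (hs : Z.s = G.s) (hr : Z.ρ + Z.s ≤ 10) (hs1 : 1 ≤ Z.s)
    {φ : ℤ × ℤ → ℤ × ℤ} {R : ℕ → ℤ × ℤ → Prop} (H : @H982.Coord L A φ R)
    (hcl : ∀ D : ℤ × ℤ → Prop, ∀ U U', Z.T U U' → (∀ x ∈ U', D x) → ∀ x ∈ U, D x)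
    (hp : ∃ (M0 : ℕ) (ρ C0 : ℝ), 1 ≤ M0 ∧ 0 ≤ ρ ∧ ρ < @H982.mu L ∧ ∀ n : ℕ,
      (((Kw A n).filter (fun w => M0 * (Z.B w).card ≤ n)).card : ℝ) ≤ C0 * ρ ^ n)
    (D : ℤ × ℤ → Prop) (h0 : D 0) (g : ℕ) (K : ℝ) (hg : 2 ≤ g)
    (hlow : ∀ n : ℕ, 2 ≤ n → @H982.mu L ^ n * Real.exp (-(K * Real.log n ^ g)) ≤
      ((walks G D n).ncard : ℝ)) : All G D g := by
  refine both_of G D e Z hs hr (by omega) h0 (gr_dom Z H hs1 D h0 (hcl D) hp hg
    (K := K) fun n hn => ?_)
  refine (hlow n hn).trans (le_of_eq ?_)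
  exact ncard_eq G h0 e Z n

/-- **Theorem.** For each of the three grids let `μ` be the connective constant, and `s = 2` for the
square and the hexagonal grid, `s = 1` for the triangular grid.
`Ratio G D g`: the ratio theorem for the means `m_n` of functions of the whole walk in `D`,
`|m_{n+s} / m_n - 1| ≤ R (δ + ((log n)^(g/2) + √(log (M / m_n))) / √n)` for all large `n`, uniformly
over all functions `F` with values in `[0, M]` and mean at least `M e^(-cn)` which change at most by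
the factor `1 ± δ` if the coordinates of the walk at all times change by at most `10` and it gets `s`
more steps. `Close G D g`: if `F` has values in `[0, 1]` and changes by at most `δ` under such changes,
then `|m_{n+sj} - m_n| ≤ C j (δ + √((log n)^g / n))` for `n ≥ 2`. `Moments G D g X`: for every real `p`
the means of `X ^ p` satisfy `m_{n+s} / m_n = 1 + O(√((log n)^g / n))`.
These properties hold, with `X` the diameter and the largest distance from the origin,
(1) for the closed upper half-plane on the three grids, with `g = 2`;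
(2) for the square and the triangular grid and every set `D` of vertices which contains `0` and has at
least `μ ^ n exp (- K (log n)^g)` walks with `n` steps, for all `n ≥ 2` (`g ≥ 2`);
(3) on the square grid with `g = 3` for every `D` which contains the points with `|x| ≤ η y`, for some
`0 < η ≤ 1`. -/
theorem result : ∀ G : Grid, ∃ μ : ℝ, 0 < μ ∧
    Tendsto (fun n : ℕ => ((walks G (fun _ => True) n).ncard : ℝ) ^ (1 / (n : ℝ))) atTop (𝓝 μ) ∧
    All G G.Half 2 ∧
    (G ≠ .hexagonal → ∀ D : ℤ × ℤ → Prop, D 0 → ∀ (g : ℕ) (K : ℝ), 2 ≤ g →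
      (∀ n : ℕ, 2 ≤ n → μ ^ n * Real.exp (-(K * Real.log n ^ g)) ≤
        ((walks G D n).ncard : ℝ)) → All G D g) ∧
    (G = .square → ∀ η : ℝ, 0 < η → η ≤ 1 → ∀ D : ℤ × ℤ → Prop,
      (∀ p : ℤ × ℤ, |(G.pt p).re| ≤ η * (G.pt p).im → D p) → All G D 3) := by
  have esq : Grid.square.Adj = Pool.Agent.R965.HP.Sq.A := rfl
  have etri : Grid.triangular.Adj = TH966.AK.Tri.A := TH966.AK.adjT_eq
  have ehex : Grid.hexagonal.Adj = TH966.AK.Hex.A := rfl
  obtain ⟨φ, R, htri, -⟩ := Pool.Agent.R965.HP.coord_triA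
  have hdsq := dom_of H982P.sqL .square esq Pool.Agent.R965.HP.Sq.rule rfl
    (show 2 + 2 ≤ 10 by norm_num) (show 1 ≤ 2 by norm_num) H982P.coord_sq Pool.Agent.R965.HP.sq_cl
    Pool.Agent.R965.HP.sq_poor
  intro G
  cases G with
  | square =>
    refine ⟨@H982.mu H982P.sqL, @H982.mu_pos H982P.sqL,
      root_of H982P.sqL .square esq Pool.Agent.R965.HP.Sq.rule H982P.coord_sq, ?_,
      fun _ => hdsq, ?_⟩
    · rw [half_square]
      exact both_of .square _ esq Pool.Agent.R965.HP.Sq.rule rfl (show 2 + 2 ≤ 10 by norm_num)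
        one_le_two
        (show (0 : ℤ) ≤ 0 from le_rfl) Pool.Agent.R965.HP.half_sq
    · intro _ η hη hη1 D hD
      have hD' : ∀ p : ℤ × ℤ, |(p.2 : ℝ)| ≤ η * (p.1 : ℝ) → D p := hD
      have h0 : D 0 := hD' 0 (by simp)
      obtain ⟨K, hK⟩ := Pool.Agent.TH303.SX2.wedge_final
      refine hdsq D h0 3 (K / η) (by norm_num) fun n hn => ?_
      have h1 := hK η hη hη1 n hn
      have hw : ((Pool.Agent.H122R3.SX.walks n).ncard : ℝ) = @H982.cr' H982P.sqL n := by
        rw [← @H982.ncard_walks H982P.sqL _ _ _ H982P.coord_sq]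
        rfl
      have h2 := @H982.mu_pow_le H982P.sqL n
      rw [← hw] at h2
      have hmp : 0 < @H982.mu H982P.sqL ^ n := pow_pos (@H982.mu_pos H982P.sqL) n
      have hpos : (0 : ℝ) < ((Pool.Agent.H122R3.SX.walks n).ncard : ℝ) := hmp.trans_le h2
      rw [le_div_iff₀ hpos] at h1
      rw [ncard_eq .square h0 esq Pool.Agent.R965.HP.Sq.rule n,
        ← ncard_Wk Pool.Agent.R965.HP.Sq.rule h0 n]
      have hfin : (Wk Pool.Agent.R965.HP.Sq.A D n).Finite :=
        Wk_finite Pool.Agent.R965.HP.Sq.rule h0 n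
      have h3 : ({f | f ∈ Pool.Agent.H122R3.SX.walks n ∧
          ∀ i, |((f i).1 : ℝ)| ≤ η * (f i).2}.ncard : ℝ) ≤
          ((Wk Pool.Agent.R965.HP.Sq.A D n).ncard : ℝ) := by
        have hinj : Function.Injective (fun f : Fin (n + 1) → ℤ × ℤ => fun i => (f i).swap) := by
          intro f f' h
          funext i
          have := congrFun h i
          exact Prod.swap_injective this
        have hsub : (fun f : Fin (n + 1) → ℤ × ℤ => fun i => (f i).swap) ''
            {f | f ∈ Pool.Agent.H122R3.SX.walks n ∧ ∀ i, |((f i).1 : ℝ)| ≤ η * (f i).2} ⊆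
            Wk Pool.Agent.R965.HP.Sq.A D n := by
          rintro _ ⟨f, hf, rfl⟩
          refine ⟨?_, ?_, fun i => ?_, fun i => hD' _ (hf.2 i)⟩
          · show (f 0).swap = 0
            rw [hf.1.1]
            rfl
          · intro i j hij
            exact hf.1.2.1 (Prod.swap_injective hij)
          · have h4 := hf.1.2.2 i
            show |(f i.castSucc).2 - (f i.succ).2| + |(f i.castSucc).1 - (f i.succ).1| = 1
            rw [add_comm]
            exact h4
        rw [← Set.ncard_image_of_injective _ hinj]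
        exact_mod_cast Set.ncard_le_ncard hsub hfin
      refine le_trans ?_ (h1.trans h3)
      rw [mul_comm]
      exact mul_le_mul_of_nonneg_left h2 (Real.exp_pos _).le
  | triangular =>
    have h00 : (0 : ℤ) ≤ 0 + 0 := by norm_num
    refine ⟨@H982.mu H982P.triL, @H982.mu_pos H982P.triL,
      root_of H982P.triL .triangular etri TH966.AK.Tri.rule htri, ?_, fun _ => ?_,
      (fun h => by cases h)⟩
    · rw [half_triangular]
      exact both_of .triangular _ etri TH966.AK.Tri.rule rfl (show 1 + 1 ≤ 10 by norm_num)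
        one_le_two h00
        Pool.Agent.R965.HP.half_tri
    · exact dom_of H982P.triL .triangular etri TH966.AK.Tri.rule rfl (show 1 + 1 ≤ 10 by norm_num)
        (show 1 ≤ 1 by norm_num) htri Pool.Agent.R965.HP.tri_cl Pool.Agent.R965.HP.tri_poor
  | hexagonal =>
    refine ⟨Real.sqrt (2 + Real.sqrt 2), by positivity, ?_, ?_, fun h => absurd rfl h,
      (fun h => by cases h)⟩
    · have h1 := root_of H982P.hexL .hexagonal ehex TH966.AK.Hex.rule H982P.coord_hex
      rw [Pool.Agent.H976R3.HPL.mu_hex] at h1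
      exact h1
    · rw [half_hexagonal]
      exact both_of .hexagonal _ ehex TH966.AK.Hex.rule rfl (show 8 + 2 ≤ 10 by norm_num)
        one_le_two
        (show (0 : ℤ) ≤ 0 from le_rfl) Pool.Agent.R965.HP.half_hex

end Pool.Agent.Results.MP_df1d0b_pr.WholeWalkRatio
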